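import Pool.Agent.U47.AC.Core

/-!
# Gap 2-to-1 games with perfect completeness are not hard under constant-depth reductions

Circuits (`Circuit`, `nodeVal`, `nodeDepth`) are defined in `Pool/Agent/H568R2/Defs.lean`: they have
NOT gates and AND and OR gates of unbounded fan-in, and `size` is the number of gates.

A many-one reduction from a function `f` of `N` bits to the gap problem for 2-to-1 games, value one
against value at most `δ < 1`, which is computed by circuits of constant depth, needs exponential
size, `exp (Ω (X ^ (1 / (h + 1))))` up to the factor `N`, where `X = (1 - δ) * (average sensitivity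
of f)`. This holds for every alphabet size `q`, every size of the game, nonuniform circuits, and also
if the reduction is correct only on a set `W` of inputs; then the average sensitivity is taken inside
of `W`. So only functions of small average sensitivity, as those computed by circuits of constant
depth, have such reductions. In particular, for a randomised reduction from parity (to which all but
the bits in `P` are random bits) which is correct with probability `1 - γ > 1 / 2`, even only on
average over the inputs, this applies with `X = (1 - δ) (1 - 2 γ) |P|`.

Parity is in `NP`, and `NP`-hardness proofs which do not produce a gap usually are reductions of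
constant depth. For instance, to tell value one from value less than one is `NP`-hard under such
reductions if `q ≥ 6` (for the 3-colourability of graphs: the edges of the graph are vertices of the
game, with the six pairs of different colours as labels). So the gap in the conjecture cannot be
produced at constant depth, for any `δ < 1` and any alphabet.

Idea of the proof. A game of value one and a game of value at most `δ` differ in at least a fraction
`1 - δ` of the edges. Under a random restriction which leaves a fraction `(24 s) ^ (- h)` of the
variables free, all bits of the encoding become decision trees of depth `s`, except with a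
probability of less than `1 / N`. So for every input at most `s` of the free variables are sensitive
for a given edge, and hence at most `s / (1 - δ)` of the free variables are sensitive for `f`. The
input which consists of the restriction and of random values for the free variables is uniformly
random and independent of the set of the free variables; so the expected number of free sensitive
variables is `(24 s) ^ (- h)` times the average sensitivity of `f`.
-/

set_option autoImplicit false

namespace Pool.Agent.Results.MP_ec946a_lc.ConstantDepthReductions

open Finset DomAC0

/-- The input `x` with the bit `i` flipped. -/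
def flipBit {N : ℕ} (i : Fin N) (x : Fin N → Bool) : Fin N → Bool := Function.update x i (!(x i))

open Classical in
/-- The average sensitivity of `f` inside of `W`: the average over all inputs `x` (in `W` or not) of
the number of the bits `i` such that `x` and `flipBit i x` belong to `W` and `f` has different
values there. -/
noncomputable def averageSensitivity {N : ℕ} (W : Finset (Fin N → Bool))
    (f : (Fin N → Bool) → Bool) : ℝ :=
  (∑ x : Fin N → Bool, ((univ.filter fun i : Fin N =>
    x ∈ W ∧ flipBit i x ∈ W ∧ f x ≠ f (flipBit i x)).card : ℝ)) / 2 ^ N

/-- The maps of labels in 2-to-1 games: every fibre has at most two elements. -/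
abbrev Projection (q : ℕ) : Type := {π : Fin q → Fin q // ∀ b, (univ.filter fun a => π a = b).card ≤ 2}

/-- The edges of a 2-to-1 game: a left vertex, a right vertex and a map of the labels. -/
abbrev Constraint (U V : Type) (q : ℕ) : Type := U × V × Projection q

/-- The labeling `L` of the left and `M` of the right vertices satisfies the edge. -/
def Satisfies {U V : Type} {q : ℕ} (L : U → Fin q) (M : V → Fin q) (c : Constraint U V q) : Prop :=
  c.2.2.1 (L c.1) = M c.2.1

/-- The game with the list of edges `g` has value one. -/
def ValueOne {U V E : Type} {q : ℕ} (g : E → Constraint U V q) : Prop :=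
  ∃ (L : U → Fin q) (M : V → Fin q), ∀ e, Satisfies L M (g e)

open Classical in
/-- The game with the list of edges `g` has value at most `v`. -/
def ValueAtMost {U V E : Type} {q : ℕ} [Fintype E] (v : ℝ) (g : E → Constraint U V q) : Prop :=
  ∀ (L : U → Fin q) (M : V → Fin q),
    ((univ.filter fun e => Satisfies L M (g e)).card : ℝ) ≤ v * Fintype.card E

/-- The circuit `C` computes the games `game x`: for all edges `e` and all possible constraints `c`
the node `out e c`, of depth at most `h`, tells whether the edge `e` of the game is `c`. -/
structure Computes {N : ℕ} {U V E : Type} {q : ℕ} (C : Circuit (Fin N)) (h : ℕ)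
    (game : (Fin N → Bool) → E → Constraint U V q)
    (out : E → Constraint U V q → Fin N ⊕ Fin C.size) : Prop where
  depth : ∀ e c, C.nodeDepth (out e c) ≤ h
  value : ∀ x e c, C.nodeVal x (out e c) = true ↔ game x e = c

/-- The map `game` is correct on the inputs in `W`, as a many-one reduction from `f` to the gap
problem: `true` goes to value one and `false` goes to value at most `δ`. -/
def CorrectOn {N : ℕ} {U V E : Type} {q : ℕ} [Fintype E] (W : Finset (Fin N → Bool))
    (f : (Fin N → Bool) → Bool) (δ : ℝ) (game : (Fin N → Bool) → E → Constraint U V q) : Prop :=
  ∀ x ∈ W, (f x = true → ValueOne (game x)) ∧ (f x = false → ValueAtMost δ (game x))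

/-- For every depth `h` there is `X₀ > 0` such that the following holds for all circuits `C` with `N`
inputs which compute, at depth `h`, for every input a 2-to-1 game with the (nonempty) list of edges
`E` and the alphabet `[q]`, and for all `0 ≤ δ < 1`.
(1) If the games are correct on `W` for a function `f`, and if
`X = (1 - δ) * averageSensitivity W f ≥ X₀`, then
`(number of gates) * N ≥ 2 ^ (X ^ (1 / (h + 1)) / 100)`.
(2) Let `P` be a set of inputs (the others may be random bits) and suppose that for all but
`γ 2 ^ N` inputs `x` the game of `x` has value one if the number of ones in `P` is even, and value at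
most `δ` if it is odd. If `X = (1 - δ) * (1 - 2 * γ) * |P| ≥ X₀` then
`(number of gates) * N ≥ 2 ^ (X ^ (1 / (h + 1)) / 100)`. -/
theorem result (h : ℕ) : ∃ X₀ : ℝ, 0 < X₀ ∧ ∀ (N : ℕ) (C : Circuit (Fin N)) (U V E : Type) (q : ℕ)
    [Fintype E] [Nonempty E] (game : (Fin N → Bool) → E → Constraint U V q)
    (out : E → Constraint U V q → Fin N ⊕ Fin C.size) (δ : ℝ),
    Computes C h game out → 0 ≤ δ → δ < 1 →
    (∀ (W : Finset (Fin N → Bool)) (f : (Fin N → Bool) → Bool), CorrectOn W f δ game →
      X₀ ≤ (1 - δ) * averageSensitivity W f →
      (2 : ℝ) ^ (((1 - δ) * averageSensitivity W f) ^ (1 / (h + 1 : ℝ)) / 100) ≤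
        C.size * N) ∧
    (∀ (P : Finset (Fin N)) (W : Finset (Fin N → Bool)) (γ : ℝ),
      ((Wᶜ).card : ℝ) ≤ γ * 2 ^ N →
      CorrectOn W (fun x => decide (Even (P.filter fun i => x i = true).card)) δ game →
      X₀ ≤ (1 - δ) * ((1 - 2 * γ) * P.card) →
      (2 : ℝ) ^ (((1 - δ) * ((1 - 2 * γ) * P.card)) ^ (1 / (h + 1 : ℝ)) / 100) ≤
        C.size * N) := by
  classical
  obtain ⟨X₀, hX0, hX⟩ := Pool.Agent.U47.AC.main h
  refine ⟨X₀, hX0, ?_⟩
  intro N C U V E q _ _ game out δ hcomp hδ hδ1
  have hsens : ∀ (W : Finset (Fin N → Bool)) (f : (Fin N → Bool) → Bool),
      averageSensitivity W f = Pool.Agent.U47.AC.avgSens W f := by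
    intro W f
    unfold averageSensitivity Pool.Agent.U47.AC.avgSens
    congr 1
    refine sum_congr rfl fun x _ => ?_
    congr 2
    ext i
    rw [mem_filter, mem_filter]
    exact Iff.rfl
  have part1 : ∀ (W : Finset (Fin N → Bool)) (f : (Fin N → Bool) → Bool),
      CorrectOn W f δ game → X₀ ≤ (1 - δ) * averageSensitivity W f →
      (2 : ℝ) ^ (((1 - δ) * averageSensitivity W f) ^ (1 / (h + 1 : ℝ)) / 100) ≤
        C.size * N := by
    intro W f hW hXf
    rw [hsens] at hXf ⊢
    have key := hX C game out (fun (l : (U → Fin q) × (V → Fin q)) c => Satisfies l.1 l.2 c) 0 δ W f
      Fintype.card_pos hcomp.depth hcomp.value le_rfl hδ (by linarith) ?_ ?_ (by simpa using hXf)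
    · simpa using key
    · intro x hx hfx
      obtain ⟨L, M, hLM⟩ := (hW x hx).1 hfx
      refine ⟨(L, M), ?_⟩
      rw [Finset.filter_true_of_mem (fun e _ => hLM e), card_univ]
      simp
    · intro x hx hfx l
      exact (hW x hx).2 hfx l.1 l.2
  refine ⟨part1, ?_⟩
  intro P W γ hWc hW hXP
  have hg : 0 < 1 - δ := by linarith
  have hs := Pool.Agent.U47.AC.parity_sens P W
    (fun x => decide (Even (P.filter fun i => x i = true).card)) γ (by
      refine le_trans (le_of_eq ?_) hWc
      congr 2
      ext x
      simp) (by
      intro x _
      rw [decide_eq_true_iff, Nat.not_odd_iff_even])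
  rw [← hsens] at hs
  have hle := mul_le_mul_of_nonneg_left hs hg.le
  refine le_trans ?_ (part1 W _ hW (hXP.trans hle))
  apply Real.rpow_le_rpow_of_exponent_le (by norm_num)
  apply div_le_div_of_nonneg_right _ (by norm_num)
  exact Real.rpow_le_rpow (hX0.le.trans hXP) hle (by positivity)

end Pool.Agent.Results.MP_ec946a_lc.ConstantDepthReductions
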