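import Pool.Agent.U20.DG.Main

/-!
# Satisfiable 2-to-1 games are hard for decomposable circuits

A circuit (`Pool/Agent/U20/DN/Defs.lean`) has leaves which test one variable each, conjunctions of
two gates and disjunctions of arbitrarily many gates; it is decomposable (a DNNF) if no variable
occurs below both gates of a conjunction. An input is accepted if there is a proof tree (`Acc`).
The circuits need not be acyclic. This model contains the nondeterministic read-once branching
programs, and generally all nondeterministic algorithms and dynamic programs that divide the
edges of the game between independent subproblems; different computations may read the edges in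
different orders and divide them along different trees.

The inputs are 2-to-1 games with alphabet size `q` on `n + n` vertices whose edges are all pairs
(`Pool/Agent/U20/DG/Defs.lean`); the variables are the edges, their values the constraint maps, so
a leaf may test any property of one constraint map. A decomposable circuit which accepts all games
of value `1` and rejects all games of value at most `1 / g` has at least `q ^ (n / P)` gates,
`P = 2 ^ 25 * g ^ 4`, if `q ≥ 2 ^ 57 * g ^ 8` and `n ≥ 18 g`. The bound holds up to the factor `2 ^ μ`
also for random circuits which never accept a game of value at most `1 / g` and accept every game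
of value `1` with probability at least `2 ^ (- μ)` (the deterministic case is `R = Unit`,
`μ = 0`).

Conversely the trivial circuit, which guesses the labeling, has `q ^ (2 n) (2 n ^ 2 + 1) + 1` gates
and accepts exactly the games of value `1`. So the exponent `n` is correct up to a factor which
depends on `g` only, for exact computation and for every constant gap.

The tensor networks of the starting file `TensorNetworks` of this folder have cancellations, but
all computations have to use the same tree; the two models are incomparable.

Proof: Let `θ = y ^ 2`, `y = n / (16 g)`. In every proof tree of a circuit in which more than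
`2 θ` variables occur there is a gate `u` with more than `θ` variables, and a gate `w`, equal to `u`
or an input of the disjunction `u`, with at most `2 θ` variables. The circuit with a hole at
`u` (proof trees through `u` which end there) has the same gates, is decomposable, and the
variables of `u` do not occur in it any more. Iterating this, we see that among the accepted
inputs of any given family a fraction `s ^ (- 2 t)`, `s` the number of gates, is contained in one
product set of accepted inputs with respect to a partition of the variables into `t` parts with at
most `2 θ` variables each. We take a random labeling and random constraint maps which it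
satisfies. Mixtures of `t` such games, the `j`-th one on the `j`-th part, have value more than
`1 / g` with probability at most `(q - 1) ^ (- n) 4 ^ (- n)`: a labeling which satisfies more
than `n ^ 2 / g` edges of the mixture agrees with the labelings of the parts in at least `4 n` pairs
(part, vertex), or it satisfies more than `n ^ 2 / (2 g)` edges whose left label is another one. So
a product set of accepted inputs contains at most a fraction `((q - 1) ^ n 4 ^ n) ^ (- 1 / t)` of
our games.
-/

set_option autoImplicit false

namespace Pool.Agent.Results.MP_ec946a_lc.DecomposableCircuits

open Pool.Agent.U20.DN Pool.Agent.U20.DG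

theorem result :
    (∀ g q n : ℕ, 1 ≤ g → 2 ^ 57 * g ^ 8 ≤ q → 18 * g ≤ n →
      ∀ (μ : ℕ) (R : Type) [Fintype R] [Nonempty R] (I : R → Type) [∀ ρ, Fintype (I ρ)]
        (G : ∀ ρ, I ρ → Gate (Fin n × Fin n) (Mp q q 2) (I ρ)) (r : ∀ ρ, I ρ),
        (∀ ρ, Decomposable (G ρ)) →
        (∀ ρ x, ValueLe g x → ¬ Acc (G ρ) x (r ρ)) →
        (∀ x, ValueOne x →
          Nat.card R ≤ 2 ^ μ * Nat.card {ρ // Acc (G ρ) x (r ρ)}) →
        ∃ ρ, q ^ n ≤ (2 ^ μ * Fintype.card (I ρ)) ^ (2 ^ 25 * g ^ 4)) ∧
    (∀ q n : ℕ,
      ∃ (I : Type) (_ : Fintype I) (G : I → Gate (Fin n × Fin n) (Mp q q 2) I) (r : I),
        Decomposable G ∧ Fintype.card I = q ^ n * q ^ n * (2 * (n * n) + 1) + 1 ∧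
          ∀ x, Acc G x r ↔ ValueOne x) :=
  ⟨fun _ _ _ hg hq hn μ R _ _ I _ G r hd hno hyes => two_dnnf hg hq hn μ R I G r hd hno hyes,
    fun q n => upper_dnnf n q q 2⟩

end Pool.Agent.Results.MP_ec946a_lc.DecomposableCircuits
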