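import Pool.Agent.H16DG.Circ

/-!
# The relabelings of every 2-to-1 game are hard for decomposable circuits

A circuit (`Pool/Agent/U20/DN/Defs.lean`) has leaves which test one variable each, conjunctions of
two gates and disjunctions of arbitrarily many gates; it is decomposable (a DNNF) if no variable
occurs below both gates of a conjunction. An input is accepted if there is a proof tree (`Acc`).
The model contains the nondeterministic read-once branching programs.

The inputs are 2-to-1 games (`Pool/Agent/H16DG/Defs.lean`) on `n + n` vertices whose edges are all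
pairs; the labels are the elements of a finite abelian group `Γ` with `q` elements, the constraint of
an edge is a map of `Γ` to `Γ` for which each element has at most two preimages. The variables are
the edges, their values the maps.

1. Let `w` be any 2-to-1 game, for instance one of value `1`, and `0 < η ≤ 1`. A decomposable circuit
which accepts all relabelings of `w` (at each vertex the labels are shifted by an element of the
group) and rejects all 2-to-1 games of value at most `2 / q + η` has at least
`exp (η ^ 14 n / (2 ^ 45 q ^ 3))` gates, if `n ≥ 2 ^ 19 q / η ^ 6`. It also holds, up to the factor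
`2 ^ μ`, for random circuits which never accept a game of value at most `2 / q + η` and accept each
relabeling of `w` with probability at least `2 ^ (- μ)`.
2. The relabelings of `w` are 2-to-1 games with the same optimum. So if `w` has value `1`, a circuit
for the promise problem `Gap_q(1, δ)`, `δ ≥ 2 / q + η`, has to be large already since it must accept
the relabelings of `w`.
3. The trivial circuit, which guesses the labeling, has `q ^ (2 n) (2 n ^ 2 + 1) + 1` gates and
accepts exactly the games of value `1`.

Proof of (1): Decomposable circuits with `s` gates contain, for any family of accepted inputs, a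
product set with respect to a partition of the edges into `t` parts of at most `2 θ` edges which
contains a fraction `s ^ (- 2 t)` of the family (`U20.DN`). We show that a mixture of `t` independent
random relabelings of `w`, the `k`-th one on the `k`-th part, has value at most `2 / q + η` except
with probability `exp (- η ^ 2 n / (32 t))`. The kernel `g (x, y) = 1_{π x = y} - |π⁻¹ y| / q` of a
2-to-1 map `π` has row sums and column sums `0`. By Cauchy-Schwarz, applied twice, the fourth power
of the excess over `2 n ^ 2 / q` of the number of edges satisfied by a labeling is at most `n ^ 4`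
times the sum of the products of kernels over the four-cycles of vertices with labels
(`form_four`). Unless the four-cycle is degenerate or two opposite edges are in the same part, the
mean of such a product is `0`. This bounds the mean of the value of the mixture. The value has
bounded differences, since the labels of one vertex in one part concern `2 n` edges only.
-/

set_option autoImplicit false

namespace Pool.Agent.Results.MP_ec946a_lc.RelabeledGames

open Pool.Agent.U20.DN Pool.Agent.H16DG

theorem result (Γ : Type) [AddCommGroup Γ] [Fintype Γ] :
    (∀ (n : ℕ) (η : ℝ), 0 < η → η ≤ 1 → 2 ^ 19 * (Fintype.card Γ : ℝ) / η ^ 6 ≤ (n : ℝ) →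
      ∀ w : Fin n × Fin n → Γ → Γ, FibersAtMost 2 w →
      ∀ (μ : ℕ) (R : Type) [Fintype R] [Nonempty R] (I : R → Type) [∀ ρ, Fintype (I ρ)]
        (G : ∀ ρ, I ρ → Gate (Fin n × Fin n) (Γ → Γ) (I ρ)) (r : ∀ ρ, I ρ),
        (∀ ρ, Decomposable (G ρ)) →
        (∀ ρ x, FibersAtMost 2 x → ValueAtMost (2 / (Fintype.card Γ : ℝ) + η) x →
          ¬ Acc (G ρ) x (r ρ)) →
        (∀ α β : Fin n → Γ,
          Nat.card R ≤ 2 ^ μ * Nat.card {ρ // Acc (G ρ) (relabel w α β) (r ρ)}) →
        ∃ ρ, Real.exp (η ^ 14 * n / (2 ^ 45 * (Fintype.card Γ : ℝ) ^ 3)) ≤
          2 ^ μ * (Fintype.card (I ρ) : ℝ)) ∧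
    (∀ (n : ℕ) (w : Fin n × Fin n → Γ → Γ) (α β : Fin n → Γ),
      (FibersAtMost 2 w → FibersAtMost 2 (relabel w α β)) ∧
        ∀ k, Optimum k (relabel w α β) ↔ Optimum k w) ∧
    (∀ n : ℕ,
      ∃ (I : Type) (_ : Fintype I) (G : I → Gate (Fin n × Fin n) (Γ → Γ) I) (r : I),
        Decomposable G ∧ Fintype.card I = Fintype.card Γ ^ (2 * n) * (2 * n ^ 2 + 1) + 1 ∧
          ∀ x, Acc G x r ↔ ∃ L R : Fin n → Γ, ∀ e, Sat x L R e) := by
  classical
  refine ⟨fun n η hη hη1 hn w hw μ R _ _ I _ G r hd hno hyes => ?_,
    fun n w α β => ⟨fun hw => ?_, relabel_optimum w α β⟩, fun n => ?_⟩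
  · have h1 := lower (d := 2) hη hη1 (by norm_num) (by
      refine le_trans (le_of_eq ?_) hn
      push_cast
      ring) w hw μ R I G r hd
      (fun ρ x hx hv => hno ρ x hx (by push_cast at hv; exact hv)) hyes
    obtain ⟨ρ, hρ⟩ := h1
    refine ⟨ρ, le_trans (le_of_eq ?_) hρ⟩
    congr 2
    push_cast
    ring
  · exact fibers_relabel hw (fun _ => ()) (fun _ => fun i => (α i, β i))
  · obtain ⟨I, hI, G, r, h1, h2, h3⟩ := upper (A := Γ) (B := Γ) n
    exact ⟨I, hI, G, r, h1, by rw [h2]; ring, h3⟩

end Pool.Agent.Results.MP_ec946a_lc.RelabeledGames
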