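import Pool.Agent.H16DG.Tensor

/-!
# The relabelings of every 2-to-1 game are hard for read-once tensor networks

A tree tensor network `Net K V A W` (`Pool/Agent/TH700/PA/Defs.lean`) has leaves that read one
variable with a vector in `K ^ W` for each value; an inner node combines the vectors of its two
children by an arbitrary bilinear map. It accepts the input `x` if a linear form of the vector of
the root is not zero. The field `K` and the weights are arbitrary, so there may be cancellations.
The tree is arbitrary. The bond dimension is `card W`.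

The inputs are 2-to-1 games (`Pool/Agent/H16DG/Defs.lean`) on `n + n` vertices whose edges are all
pairs; the labels are the elements of a finite abelian group `Γ` with `q` elements, the constraint of
an edge is a map of `Γ` to `Γ` for which each element has at most two preimages. The variables are
the edges, their values the maps.

1. Let `w` be any 2-to-1 game, for instance one of value `1`, and `0 < η ≤ 1`. A network which reads
each edge at most once, is not zero on all relabelings of `w` (at each vertex the labels are shifted
by an element of the group) and zero on all 2-to-1 games of value at most `2 / q + η` has bond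
dimension at least `exp (η ^ 10 n / (2 ^ 34 q ^ 2))`, if `n ≥ 2 ^ 46 q ^ 3 / η ^ 14`; the number of
nodes is arbitrary. The bound also holds, up to the factor `2 ^ μ`, for random networks which are zero
on games of value at most `2 / q + η` and are not zero on each relabeling of `w` with probability
at least `2 ^ (- μ)`.
2. The relabelings of `w` are 2-to-1 games with the same optimum.
3. There is a linear network over `ℚ` with `2 n ^ 2 - 1` nodes and bond dimension `q ^ (2 n)`, which
reads each edge once and is not zero exactly on the games of value `1`.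

The starting result `TensorNetworks` treats all games of value `1` and needs `q ≥ 2 ^ 57 g ^ 8` for
soundness `1 / g`. Its lemmas on networks (partition, rank, replacement) are used here. New is that
mixtures of independent random relabelings of one arbitrary game have value at most `2 / q + η` with
high probability, for every `q` (`H16DG`, see `RelabeledGames`).
-/

set_option autoImplicit false

namespace Pool.Agent.Results.MP_ec946a_lc.RelabeledNetworks

open Pool.Agent.H16DG
open Pool.Agent.TH700.PA (Net)

theorem result (Γ : Type) [AddCommGroup Γ] [Fintype Γ] :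
    (∀ (n : ℕ) (η : ℝ), 0 < η → η ≤ 1 → 2 ^ 46 * (Fintype.card Γ : ℝ) ^ 3 / η ^ 14 ≤ (n : ℝ) →
      ∀ w : Fin n × Fin n → Γ → Γ, FibersAtMost 2 w →
      ∀ (μ : ℕ) (R : Type) [Fintype R] [Nonempty R] (K W : R → Type) [∀ ρ, Field (K ρ)]
        [∀ ρ, Fintype (W ρ)] (T : ∀ ρ, Net (K ρ) (Fin n × Fin n) (Γ → Γ) (W ρ))
        (c : ∀ ρ, W ρ → K ρ),
        (∀ ρ e, (T ρ).reads e ≤ 1) →
        (∀ ρ x, FibersAtMost 2 x → ValueAtMost (2 / (Fintype.card Γ : ℝ) + η) x →
          (T ρ).value (c ρ) x = 0) →
        (∀ α β : Fin n → Γ,
          Nat.card R ≤ 2 ^ μ * Nat.card {ρ // (T ρ).value (c ρ) (relabel w α β) ≠ 0}) →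
        ∃ ρ, Real.exp (η ^ 10 * n / (2 ^ 34 * (Fintype.card Γ : ℝ) ^ 2)) ≤
          2 ^ μ * (Fintype.card (W ρ) : ℝ)) ∧
    (∀ (n : ℕ) (w : Fin n × Fin n → Γ → Γ) (α β : Fin n → Γ),
      (FibersAtMost 2 w → FibersAtMost 2 (relabel w α β)) ∧
        ∀ k, Optimum k (relabel w α β) ↔ Optimum k w) ∧
    (∀ n : ℕ, 1 ≤ n →
      ∃ (W : Type) (_ : Fintype W) (T : Net ℚ (Fin n × Fin n) (Γ → Γ) W) (c : W → ℚ),
        Fintype.card W = Fintype.card Γ ^ (2 * n) ∧
        T.Linear ∧ (∀ e, T.reads e = 1) ∧ T.size = 2 * n ^ 2 - 1 ∧
          ∀ x, T.value c x ≠ 0 ↔ ∃ L R : Fin n → Γ, ∀ e, Sat x L R e) := by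
  classical
  refine ⟨fun n η hη hη1 hn w hw μ R _ _ K W _ _ T c h1 hno hyes => ?_,
    fun n w α β => ⟨fun hw => ?_, relabel_optimum w α β⟩, fun n hn => ?_⟩
  · have h2 := lower_net (d := 2) hη hη1 (by norm_num) (by
      refine le_trans (le_of_eq ?_) hn
      push_cast
      ring) w hw μ R K W T c h1
      (fun ρ x hx hv => hno ρ x hx (by push_cast at hv; exact hv)) hyes
    obtain ⟨ρ, hρ⟩ := h2
    refine ⟨ρ, le_trans (le_of_eq ?_) hρ⟩
    congr 2
    push_cast
    ring
  · exact fibers_relabel hw (fun _ => ()) (fun _ => fun i => (α i, β i))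
  · obtain ⟨W, hW, T, c, h1, h2, h3, h4, h5⟩ := upper_net (A := Γ) (B := Γ) hn
    exact ⟨W, hW, T, c, by rw [h1]; ring, h2, h3, h4, h5⟩

end Pool.Agent.Results.MP_ec946a_lc.RelabeledNetworks
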